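import Pool.Agent.Ha75ade.Comb

set_option autoImplicit false

open Filter Topology

namespace Pool.Agent.Ha75ade

theorem ex_zero (j k : ℕ) : ex j k 0 = j := by simp [ex]
theorem ex_one (j k : ℕ) : ex j k 1 = k := by simp [ex]

theorem ex_eq (m : Fin 2 →₀ ℕ) : m = ex (m 0) (m 1) := by
  ext i
  fin_cases i
  · simp [ex_zero]
  · simp [ex_one]

theorem ex_inj {j k j' k' : ℕ} (h : ex j k = ex j' k') : j = j' ∧ k = k' := by
  constructor
  · have := DFunLike.congr_fun h 0
    rwa [ex_zero, ex_zero] at this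
  · have := DFunLike.congr_fun h 1
    rwa [ex_one, ex_one] at this

theorem ex_le {l k j k' : ℕ} : ex l k ≤ ex j k' ↔ l ≤ j ∧ k ≤ k' := by
  constructor
  · intro h
    exact ⟨by simpa [ex_zero] using h 0, by simpa [ex_one] using h 1⟩
  · rintro ⟨h1, h2⟩ i
    fin_cases i
    · simpa [ex_zero] using h1
    · simpa [ex_one] using h2

/-- the power series of `1 / (1 - z₁^ν)` -/
noncomputable def f0 (ν : ℕ) : MvPowerSeries (Fin 2) ℂ :=
  fun m => if m 1 = 0 ∧ ν ∣ m 0 then 1 else 0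

theorem coeff_f0 (ν : ℕ) (m : Fin 2 →₀ ℕ) :
    MvPowerSeries.coeff m (f0 ν) = if m 1 = 0 ∧ ν ∣ m 0 then 1 else 0 := rfl

/-- the polynomial `1 - z₁^ν` -/
noncomputable def G0 (ν : ℕ) : MvPolynomial (Fin 2) ℂ := 1 - MvPolynomial.X 0 ^ ν

theorem G0_coe (ν : ℕ) : ((G0 ν : MvPolynomial (Fin 2) ℂ) : MvPowerSeries (Fin 2) ℂ)
    = 1 - MvPowerSeries.monomial (Finsupp.single 0 ν) 1 := by
  unfold G0
  rw [← MvPowerSeries.X_pow_eq]
  have h := map_sub (MvPolynomial.coeToMvPowerSeries.ringHom (σ := Fin 2) (R := ℂ)) 1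
    (MvPolynomial.X 0 ^ ν)
  rw [map_one, map_pow] at h
  simpa using h

theorem G0_mul_f0 {ν : ℕ} (hν : 0 < ν) :
    ((G0 ν : MvPolynomial (Fin 2) ℂ) : MvPowerSeries (Fin 2) ℂ) * f0 ν = 1 := by
  rw [G0_coe, sub_mul, one_mul]
  ext m
  rw [map_sub, MvPowerSeries.coeff_monomial_mul, MvPowerSeries.coeff_one, coeff_f0]
  by_cases hle : Finsupp.single 0 ν ≤ m
  · have h0 : ν ≤ m 0 := by simpa using hle 0
    have hm : m ≠ 0 := by
      rintro rfl
      simp at h0
      omega
    rw [if_pos hle, if_neg hm, coeff_f0]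
    have e1 : (m - (Finsupp.single 0 ν : Fin 2 →₀ ℕ)) 1 = m 1 := by simp
    have e2 : (m - (Finsupp.single 0 ν : Fin 2 →₀ ℕ)) 0 = m 0 - ν := by simp
    rw [e1, e2, one_mul]
    have e3 : ν ∣ m 0 - ν ↔ ν ∣ m 0 := by
      constructor
      · intro h
        have := Nat.dvd_add h (dvd_refl ν)
        rwa [Nat.sub_add_cancel h0] at this
      · intro h
        exact Nat.dvd_sub h (dvd_refl ν)
    simp only [e3, sub_self]
  · have h0 : m 0 < ν := by
      by_contra h
      push Not at h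
      apply hle
      intro i
      fin_cases i
      · simpa using h
      · simp
    rw [if_neg hle, sub_zero]
    by_cases hm : m = 0
    · rw [if_pos hm, hm]
      simp
    · rw [if_neg hm, if_neg]
      rintro ⟨h1, h2⟩
      apply hm
      have h3 : m 0 = 0 := Nat.eq_zero_of_dvd_of_lt h2 h0
      ext i
      fin_cases i
      · simpa using h3
      · simpa using h1

/-- `z₂^k ∑_{l<d} c_l z₁^l` -/
noncomputable def emb (d k : ℕ) (c : ℕ → ℂ) : MvPolynomial (Fin 2) ℂ :=
  ∑ l ∈ Finset.range d, MvPolynomial.monomial (ex l k) (c l)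

theorem emb_coe (d k : ℕ) (c : ℕ → ℂ) :
    ((emb d k c : MvPolynomial (Fin 2) ℂ) : MvPowerSeries (Fin 2) ℂ)
      = ∑ l ∈ Finset.range d, MvPowerSeries.monomial (ex l k) (c l) := by
  unfold emb
  have h := map_sum (MvPolynomial.coeToMvPowerSeries.ringHom (σ := Fin 2) (R := ℂ))
    (fun l => MvPolynomial.monomial (ex l k) (c l)) (Finset.range d)
  simp only [MvPolynomial.coeToMvPowerSeries.ringHom_apply] at h
  rw [h]
  apply Finset.sum_congr rfl
  intro l _
  exact MvPolynomial.coe_monomial _ _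

theorem coeff_emb (d k : ℕ) (c : ℕ → ℂ) (j k' : ℕ) :
    MvPowerSeries.coeff (ex j k') ((emb d k c : MvPolynomial (Fin 2) ℂ) : MvPowerSeries (Fin 2) ℂ)
      = if k' = k ∧ j < d then c j else 0 := by
  rw [emb_coe, map_sum]
  have h1 : ∀ l ∈ Finset.range d, MvPowerSeries.coeff (ex j k')
      (MvPowerSeries.monomial (ex l k) (c l)) = if j = l then (if k' = k then c l else 0) else 0 := by
    intro l _
    rw [MvPowerSeries.coeff_monomial]
    by_cases h : ex j k' = ex l k
    · obtain ⟨h1, h2⟩ := ex_inj h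
      subst h1; subst h2
      simp
    · rw [if_neg h]
      by_cases h1 : j = l
      · by_cases h2 : k' = k
        · exact absurd (by rw [h1, h2]) h
        · simp [h2]
      · simp [h1]
  rw [Finset.sum_congr rfl h1, Finset.sum_ite_eq]
  by_cases h2 : j < d
  · by_cases h3 : k' = k
    · simp [h2, h3]
    · simp [h3]
  · simp [h2]

theorem coeff_emb_mul (ν d k : ℕ) (c : ℕ → ℂ) (j k' : ℕ) :
    MvPowerSeries.coeff (ex j k')
      (((emb d k c : MvPolynomial (Fin 2) ℂ) : MvPowerSeries (Fin 2) ℂ) * f0 ν)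
      = if k' = k then hco ν d c j else 0 := by
  rw [emb_coe, Finset.sum_mul, map_sum]
  have h1 : ∀ l ∈ Finset.range d, MvPowerSeries.coeff (ex j k')
      (MvPowerSeries.monomial (ex l k) (c l) * f0 ν)
      = if k' = k then (if l ≤ j ∧ ν ∣ (j - l) then c l else 0) else 0 := by
    intro l _
    rw [MvPowerSeries.coeff_monomial_mul]
    by_cases h : ex l k ≤ ex j k'
    · rw [if_pos h, coeff_f0]
      obtain ⟨h2, h3⟩ := ex_le.mp h
      have e1 : (ex j k' - ex l k) 1 = k' - k := by simp [ex]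
      have e2 : (ex j k' - ex l k) 0 = j - l := by simp [ex]
      rw [e1, e2]
      by_cases h4 : k' = k
      · simp [h4, h2]
      · have h5 : k' - k ≠ 0 := by omega
        simp [h4, h5]
    · rw [if_neg h]
      by_cases h4 : k' = k
      · subst h4
        have h6 : ¬ l ≤ j := fun h7 => h (ex_le.mpr ⟨h7, le_rfl⟩)
        simp [h6]
      · simp [h4]
  rw [Finset.sum_congr rfl h1]
  by_cases h4 : k' = k
  · simp only [h4, if_true]
    rfl
  · simp [h4]

theorem eval_emb (d k : ℕ) (c : ℕ → ℂ) :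
    emb d k c = MvPolynomial.X 1 ^ k *
      Polynomial.aeval (MvPolynomial.X 0) (∑ l ∈ Finset.range d, Polynomial.monomial l (c l)) := by
  unfold emb
  rw [map_sum, Finset.mul_sum]
  apply Finset.sum_congr rfl
  intro l _
  rw [Polynomial.aeval_monomial]
  rw [MvPolynomial.monomial_eq]
  have : (ex l k).prod (fun n e => (MvPolynomial.X n : MvPolynomial (Fin 2) ℂ) ^ e)
      = MvPolynomial.X 0 ^ l * MvPolynomial.X 1 ^ k := by
    rw [Finsupp.prod_fintype _ _ (fun i => pow_zero _), Fin.prod_univ_two, ex_zero, ex_one]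
  rw [this]
  rw [MvPolynomial.algebraMap_eq]
  ring

theorem totalDegree_emb (d k N : ℕ) (c : ℕ → ℂ) (h : k + d ≤ N + 1) :
    (emb d k c).totalDegree ≤ N := by
  unfold emb
  apply MvPolynomial.totalDegree_finsetSum_le
  intro l hl
  rw [Finset.mem_range] at hl
  refine (MvPolynomial.totalDegree_monomial_le _ _).trans ?_
  rw [Finsupp.sum_fintype _ _ (fun i => rfl), Fin.sum_univ_two, ex_zero, ex_one]
  simp only [id]
  omega

/-- The bad denominators: `z₂^k q(z₁)` with `deg q < ν`. -/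
def Bad (ν : ℕ) (P Q : MvPolynomial (Fin 2) ℂ) : Prop :=
  ∃ (k : ℕ) (p q : Polynomial ℂ), q ≠ 0 ∧ q.natDegree < ν ∧
    P = MvPolynomial.X 1 ^ k * Polynomial.aeval (MvPolynomial.X 0) p ∧
    Q = MvPolynomial.X 1 ^ k * Polynomial.aeval (MvPolynomial.X 0) q

theorem coeff_unipoly (d : ℕ) (c : ℕ → ℂ) (j : ℕ) :
    (∑ l ∈ Finset.range d, Polynomial.monomial l (c l)).coeff j = if j < d then c j else 0 := by
  rw [Polynomial.finsetSum_coeff]
  simp only [Polynomial.coeff_monomial]
  rw [Finset.sum_ite_eq']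
  simp

theorem bad_of_kernel {n ν : ℕ} (hν : 2 ≤ ν) (hn : ν ≤ n) {S : Finset (ℕ × ℕ)}
    (d k : ℕ) (c : ℕ → ℂ) (hd : d ≤ ν) (hk : k + d ≤ ν + 1) (hkn : k ≤ n)
    (hc : ∃ l < d, c l ≠ 0)
    (hker : ∀ j, (j, k) ∈ S → n < j + k → hco ν d c j = 0) :
    ∃ P Q, IsApproximant n ν (f0 ν) S P Q ∧ Bad ν P Q := by
  refine ⟨emb (n + 1 - k) k (hco ν d c), emb d k c, ⟨?_, ?_, ?_, ?_⟩, ?_⟩
  · exact totalDegree_emb _ _ _ _ (by omega)
  · exact totalDegree_emb _ _ _ _ hk
  · intro h0
    obtain ⟨l, hl, hcl⟩ := hc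
    apply hcl
    have := coeff_emb d k c l k
    rw [h0] at this
    simpa [hl] using this.symm
  · intro j k' hjk
    rw [map_sub, coeff_emb_mul, coeff_emb]
    by_cases h1 : k' = k
    · subst h1
      simp only [if_true, true_and]
      by_cases h2 : j < n + 1 - k'
      · simp [h2]
      · rw [if_neg h2, sub_zero]
        exact hker j hjk (by omega)
    · simp [h1]
  · refine ⟨k, _, _, ?_, ?_, eval_emb _ _ _, eval_emb _ _ _⟩
    · intro h0
      obtain ⟨l, hl, hcl⟩ := hc
      apply hcl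
      have := coeff_unipoly d c l
      rw [h0] at this
      simpa [hl] using this.symm
    · have hd0 : 0 < d := by
        obtain ⟨l, hl, _⟩ := hc
        omega
      have : (∑ l ∈ Finset.range d, Polynomial.monomial l (c l)).natDegree ≤ d - 1 := by
        apply Polynomial.natDegree_le_iff_coeff_eq_zero.mpr
        intro j hj
        rw [coeff_unipoly, if_neg (by omega)]
      omega

theorem exists_bad {n ν : ℕ} (hν : 2 ≤ ν) (hn : ν ≤ n) (hdiv : ¬ ν ∣ n + 1)
    {S : Finset (ℕ × ℕ)} (hS : IsInterpSet n ν S) :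
    ∃ P Q, IsApproximant n ν (f0 ν) S P Q ∧ Bad ν P Q := by
  rcases few_conditions hν hn hS with h | ⟨k, hk1, hk2, h⟩ | h
  · obtain ⟨c, hc, hker⟩ := exists_kernel ν ν (n + 1) (J S 0) (by omega) h
    refine bad_of_kernel hν hn ν 0 c le_rfl (by omega) (by omega) hc ?_
    intro j hj hjn
    exact hker j (by omega) ((mem_row hS _ _).mp hj)
  · obtain ⟨c, hc, hker⟩ := exists_kernel ν (ν - k + 1) (n + 1 - k) (J S k) (by omega) h
    refine bad_of_kernel hν hn (ν - k + 1) k c (by omega) (by omega) (by omega) hc ?_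
    intro j hj hjn
    exact hker j (by omega) ((mem_row hS _ _).mp hj)
  · refine bad_of_kernel hν hn 1 ν (fun _ => 1) (by omega) (by omega) hn ⟨0, by omega, one_ne_zero⟩ ?_
    intro j hj hjn
    have hjJ := (mem_row hS _ _).mp hj
    have hjeq : j = n + 1 - ν := by omega
    unfold hco
    rw [Finset.sum_range_one, if_neg]
    rintro ⟨_, h2⟩
    apply hdiv
    rw [Nat.sub_zero, hjeq] at h2
    have := Nat.dvd_add h2 (dvd_refl ν)
    rwa [Nat.sub_add_cancel (by omega)] at this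

theorem G0_approx {n ν : ℕ} (hν : 0 < ν) (S : Finset (ℕ × ℕ)) :
    IsApproximant n ν (f0 ν) S 1 (G0 ν) := by
  refine ⟨by simp, ?_, ?_, ?_⟩
  · unfold G0
    refine (MvPolynomial.totalDegree_sub _ _).trans ?_
    simp
  · intro h
    have := congrArg (MvPolynomial.eval 0) h
    simp [G0, hν.ne'] at this
  · intro j k _
    rw [G0_mul_f0 hν]
    simp

end Pool.Agent.Ha75ade
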