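import Pool.Agent.Ha75ade.Alg

set_option autoImplicit false

open Filter Topology Metric

namespace Pool.Agent.Ha75ade

theorem isEntire_one : IsEntire 1 := by
  intro z
  apply summable_of_ne_finset_zero (s := {0})
  intro m hm
  rw [Finset.mem_singleton] at hm
  rw [MvPowerSeries.coeff_one, if_neg hm, zero_mul]

theorem value_one (z : Fin 2 → ℂ) : value 1 z = 1 := by
  unfold value
  rw [tsum_eq_single 0]
  · simp
  · intro m hm
    rw [MvPowerSeries.coeff_one, if_neg hm, zero_mul]

theorem G0_degree {ν : ℕ} (hν : 0 < ν) : (G0 ν).totalDegree = ν := by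
  apply le_antisymm
  · unfold G0
    refine (MvPolynomial.totalDegree_sub _ _).trans ?_
    simp
  · have h : Finsupp.single 0 ν ∈ (G0 ν).support := by
      rw [MvPolynomial.mem_support_iff]
      unfold G0
      rw [MvPolynomial.coeff_sub, MvPolynomial.coeff_X_pow, MvPolynomial.coeff_one, if_pos rfl,
        if_neg]
      · norm_num
      · intro h
        have := DFunLike.congr_fun h 0
        simp at this
        omega
    have := MvPolynomial.le_totalDegree h
    simpa [Finsupp.sum_single_index] using this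

theorem eval_G0 (ν : ℕ) (z : Fin 2 → ℂ) : MvPolynomial.eval z (G0 ν) = 1 - z 0 ^ ν := by
  unfold G0
  simp

theorem eval_aeval (q : Polynomial ℂ) (z : Fin 2 → ℂ) :
    MvPolynomial.eval z (Polynomial.aeval (MvPolynomial.X 0 : MvPolynomial (Fin 2) ℂ) q)
      = q.eval (z 0) := by
  rw [Polynomial.aeval_def, Polynomial.hom_eval₂]
  simp only [MvPolynomial.eval_X]
  have : (MvPolynomial.eval z).comp (algebraMap ℂ (MvPolynomial (Fin 2) ℂ)) = RingHom.id ℂ := by
    ext x
    simp [MvPolynomial.algebraMap_eq]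
  rw [this, Polynomial.eval₂_id]

theorem aeval_ne_zero {q : Polynomial ℂ} (hq : q ≠ 0) :
    Polynomial.aeval (MvPolynomial.X 0 : MvPolynomial (Fin 2) ℂ) q ≠ 0 := by
  intro h
  apply hq
  apply Polynomial.funext
  intro x
  have := eval_aeval q (fun _ => x)
  rw [h] at this
  simpa using this.symm

/-- separation of the roots of unity -/
theorem exists_sep {ν : ℕ} (hν : 2 ≤ ν) : ∃ R : Finset ℂ, R.card = ν ∧ (∀ w, w ∈ R ↔ w ^ ν = 1) ∧
    ∃ δ : ℝ, 0 < δ ∧ ∀ a ∈ R, ∀ b ∈ R, a ≠ b → δ ≤ dist a b := by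
  have hν0 : ν ≠ 0 := by omega
  have hprim := Complex.isPrimitiveRoot_exp ν hν0
  refine ⟨Polynomial.nthRootsFinset ν (1 : ℂ), hprim.card_nthRootsFinset,
    fun w => Polynomial.mem_nthRootsFinset (by omega) 1, ?_⟩
  set R := Polynomial.nthRootsFinset ν (1 : ℂ) with hR
  have hcard : R.card = ν := hprim.card_nthRootsFinset
  have hne : R.offDiag.Nonempty := by
    obtain ⟨a, ha, b, hb, hab⟩ := Finset.one_lt_card.mp (by omega : 1 < R.card)
    exact ⟨(a, b), Finset.mem_offDiag.mpr ⟨ha, hb, hab⟩⟩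
  obtain ⟨p, hp, hmin⟩ := Finset.exists_min_image R.offDiag (fun p => dist p.1 p.2) hne
  refine ⟨dist p.1 p.2, ?_, ?_⟩
  · rw [Finset.mem_offDiag] at hp
    exact dist_pos.mpr hp.2.2
  · intro a ha b hb hab
    exact hmin (a, b) (Finset.mem_offDiag.mpr ⟨ha, hb, hab⟩)

theorem reduce {p q : Polynomial ℂ} (hq : q ≠ 0) : ∃ g p' q' : Polynomial ℂ, g ≠ 0 ∧
    p = g * p' ∧ q = g * q' ∧ IsCoprime p' q' ∧ q'.natDegree ≤ q.natDegree ∧ q' ≠ 0 := by
  have hg : EuclideanDomain.gcd p q ≠ 0 := by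
    intro h
    have := EuclideanDomain.gcd_dvd_right p q
    rw [h] at this
    exact hq (zero_dvd_iff.mp this)
  obtain ⟨p', hp'⟩ := EuclideanDomain.gcd_dvd_left p q
  obtain ⟨q', hq'⟩ := EuclideanDomain.gcd_dvd_right p q
  have hq'0 : q' ≠ 0 := by
    rintro rfl
    rw [mul_zero] at hq'
    exact hq hq'
  refine ⟨EuclideanDomain.gcd p q, p', q', hg, hp', hq', ?_, ?_, hq'0⟩
  · have hb := EuclideanDomain.gcd_eq_gcd_ab p q
    refine ⟨EuclideanDomain.gcdA p q, EuclideanDomain.gcdB p q, ?_⟩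
    apply mul_left_cancel₀ hg
    have e : EuclideanDomain.gcd p q * (EuclideanDomain.gcdA p q * p' +
        EuclideanDomain.gcdB p q * q') = (EuclideanDomain.gcd p q * p') * EuclideanDomain.gcdA p q
        + (EuclideanDomain.gcd p q * q') * EuclideanDomain.gcdB p q := by ring
    rw [e, ← hp', ← hq', ← hb, mul_one]
  · conv_rhs => rw [hq']
    rw [Polynomial.natDegree_mul hg hq'0]
    omega

theorem core {ν : ℕ} (hν : 2 ≤ ν) : ∃ (K : Set (Fin 2 → ℂ)) (ε : ℝ), IsCompact K ∧ 0 < ε ∧
    (∀ z ∈ K, MvPolynomial.eval z (G0 ν) ≠ 0) ∧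
    ∀ P Q, Bad ν P Q → ¬ ∃ P' Q' : MvPolynomial (Fin 2) ℂ, P * Q' = P' * Q ∧
      ∀ z ∈ K, MvPolynomial.eval z Q' ≠ 0 ∧
        ‖MvPolynomial.eval z P' / MvPolynomial.eval z Q' - value 1 z / MvPolynomial.eval z (G0 ν)‖
          < ε := by
  obtain ⟨R, hRcard, hR, δ, hδ, hsep⟩ := exists_sep hν
  set r : ℝ := δ / 3 with hr
  have hr0 : 0 < r := by positivity
  have hcirc : ∀ ζ ∈ R, ∀ w : ℂ, w ∈ sphere ζ r → w ^ ν ≠ 1 := by
    intro ζ hζ w hw h1
    have hwR := (hR w).mpr h1
    have hne : w ≠ ζ := by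
      rintro rfl
      rw [mem_sphere, dist_self] at hw
      linarith
    have := hsep w hwR ζ hζ hne
    rw [mem_sphere] at hw
    rw [hw, hr] at this
    linarith
  set B : ℝ := 1 + (1 + r) ^ ν with hB
  have hB0 : 0 < B := by positivity
  refine ⟨⋃ ζ ∈ R, (fun w : ℂ => (![w, 1] : Fin 2 → ℂ)) '' sphere ζ r, 1 / (2 * B), ?_, ?_, ?_, ?_⟩
  · apply R.finite_toSet.isCompact_biUnion
    intro ζ _
    apply (isCompact_sphere ζ r).image
    apply continuous_pi
    intro i
    fin_cases i
    · exact continuous_id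
    · exact continuous_const
  · positivity
  · intro z hz
    simp only [Set.mem_iUnion] at hz
    obtain ⟨ζ, hζ, w, hw, rfl⟩ := hz
    rw [eval_G0]
    have := hcirc ζ hζ w hw
    intro h
    apply this
    have h2 : (1:ℂ) - w ^ ν = 0 := h
    linear_combination -h2
  · rintro P Q ⟨k, p, q, hq0, hqd, rfl, rfl⟩ ⟨P', Q', hPQ, hK⟩
    obtain ⟨g, p', q', hg, hp, hq, hcop, hdeg, hq'0⟩ := reduce (p := p) hq0
    -- cancel
    have hid : Polynomial.aeval (MvPolynomial.X 0 : MvPolynomial (Fin 2) ℂ) p' * Q'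
        = P' * Polynomial.aeval (MvPolynomial.X 0 : MvPolynomial (Fin 2) ℂ) q' := by
      have hX : (MvPolynomial.X 1 : MvPolynomial (Fin 2) ℂ) ^ k ≠ 0 :=
        pow_ne_zero _ (MvPolynomial.X_ne_zero 1)
      have hne := mul_ne_zero hX (aeval_ne_zero hg)
      apply mul_left_cancel₀ hne
      rw [hp, hq, map_mul, map_mul] at hPQ
      linear_combination hPQ
    have hval : ∀ z, MvPolynomial.eval z Q' ≠ 0 → q'.eval (z 0) ≠ 0 ∧
        MvPolynomial.eval z P' / MvPolynomial.eval z Q' = p'.eval (z 0) / q'.eval (z 0) := by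
      intro z hz
      have h1 := congrArg (MvPolynomial.eval z) hid
      rw [map_mul, map_mul, eval_aeval, eval_aeval] at h1
      have h2 : q'.eval (z 0) ≠ 0 := by
        intro h3
        rw [h3, mul_zero] at h1
        have h4 : p'.eval (z 0) = 0 := by
          rcases mul_eq_zero.mp h1 with h | h
          · exact h
          · exact absurd h hz
        obtain ⟨a, b, hab⟩ := hcop
        have := congrArg (Polynomial.eval (z 0)) hab
        simp [h3, h4] at this
      refine ⟨h2, ?_⟩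
      rw [div_eq_div_iff hz h2]
      linear_combination -h1
    -- pigeonhole
    obtain ⟨ζ, hζ, hfree⟩ : ∃ ζ ∈ R, ∀ w ∈ closedBall ζ r, q'.eval w ≠ 0 := by
      by_contra hcon
      push Not at hcon
      choose! φ hφ1 hφ2 using hcon
      have hcard : R.card ≤ q'.roots.toFinset.card := by
        apply Finset.card_le_card_of_injOn φ
        · intro ζ hζ
          simp only [Finset.mem_coe, Multiset.mem_toFinset]
          exact (Polynomial.mem_roots hq'0).mpr (hφ2 ζ hζ)
        · intro a ha b hb hab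
          by_contra hne
          have h1 := hsep a ha b hb hne
          have h2 := hφ1 a ha
          have h3 := hφ1 b hb
          rw [mem_closedBall] at h2 h3
          have h4 := dist_triangle a (φ a) b
          rw [dist_comm a (φ a)] at h4
          rw [hab] at h4 h2
          rw [hr] at h2 h3
          linarith
      have h5 := Multiset.toFinset_card_le q'.roots
      have h6 := Polynomial.card_roots' q'
      omega
    -- maximum principle
    set h : ℂ → ℂ := fun w => (1 - w ^ ν) * (p'.eval w / q'.eval w) - 1 with hh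
    have hdiff : DiffContOnCl ℂ h (ball ζ r) := by
      apply DifferentiableOn.diffContOnCl
      rw [closure_ball _ hr0.ne']
      intro w hw
      apply DifferentiableAt.differentiableWithinAt
      have hqw := hfree w hw
      have d1 : DifferentiableAt ℂ (fun w : ℂ => p'.eval w) w := p'.differentiable w
      have d2 : DifferentiableAt ℂ (fun w : ℂ => q'.eval w) w := q'.differentiable w
      have d3 : DifferentiableAt ℂ (fun w : ℂ => (1:ℂ) - w ^ ν) w := by fun_prop
      exact (d3.mul (d1.div d2 hqw)).sub_const 1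
    have hbd : ∀ w ∈ frontier (ball ζ r), ‖h w‖ ≤ 1 / 2 := by
      intro w hw
      rw [frontier_ball _ hr0.ne'] at hw
      have hzK : (![w, 1] : Fin 2 → ℂ) ∈
          ⋃ ζ ∈ R, (fun w : ℂ => (![w, 1] : Fin 2 → ℂ)) '' sphere ζ r := by
        simp only [Set.mem_iUnion]
        exact ⟨ζ, hζ, w, hw, rfl⟩
      obtain ⟨hQ', hlt⟩ := hK _ hzK
      obtain ⟨_, heq⟩ := hval _ hQ'
      rw [heq, value_one, eval_G0] at hlt
      have hz0 : (![w, 1] : Fin 2 → ℂ) 0 = w := rfl
      rw [hz0] at hlt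
      have hne : (1:ℂ) - w ^ ν ≠ 0 := by
        intro h2
        exact hcirc ζ hζ w hw (by linear_combination -h2)
      have e1 : h w = (1 - w ^ ν) * (p'.eval w / q'.eval w - 1 / (1 - w ^ ν)) := by
        rw [hh]
        field_simp
      rw [e1, norm_mul]
      have hζ1 : ‖ζ‖ = 1 := by
        have h1 := (hR ζ).mp hζ
        exact Complex.norm_eq_one_of_pow_eq_one h1 (by omega)
      have hwn : ‖w‖ ≤ 1 + r := by
        rw [mem_sphere, dist_eq_norm] at hw
        calc ‖w‖ = ‖ζ + (w - ζ)‖ := by congr 1; ring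
          _ ≤ ‖ζ‖ + ‖w - ζ‖ := norm_add_le _ _
          _ = 1 + r := by rw [hζ1, hw]
      have h1 : ‖(1:ℂ) - w ^ ν‖ ≤ B := by
        calc ‖(1:ℂ) - w ^ ν‖ ≤ ‖(1:ℂ)‖ + ‖w ^ ν‖ := norm_sub_le _ _
          _ = 1 + ‖w‖ ^ ν := by rw [norm_one, norm_pow]
          _ ≤ 1 + (1 + r) ^ ν := by
            have := pow_le_pow_left₀ (norm_nonneg w) hwn ν
            linarith
      calc ‖(1:ℂ) - w ^ ν‖ * ‖p'.eval w / q'.eval w - 1 / (1 - w ^ ν)‖
          ≤ B * (1 / (2 * B)) := mul_le_mul h1 hlt.le (norm_nonneg _) hB0.le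
        _ = 1 / 2 := by field_simp
    have hcen := Complex.norm_le_of_forall_mem_frontier_norm_le isBounded_ball hdiff hbd
      (subset_closure (mem_ball_self hr0))
    have hval0 : h ζ = -1 := by
      rw [hh]
      have h1 := (hR ζ).mp hζ
      simp [h1]
    rw [hval0] at hcen
    norm_num at hcen

end Pool.Agent.Ha75ade
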