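import Pool.Agent.Ha75ade.Defs

set_option autoImplicit false

open Filter Topology

namespace Pool.Agent.Ha75ade

/-- number of points of `S` in row `k` -/
def J (S : Finset (ℕ × ℕ)) (k : ℕ) : ℕ := (S.filter (fun p => p.2 = k)).card

theorem mem_row {n ν : ℕ} {S : Finset (ℕ × ℕ)} (hS : IsInterpSet n ν S) (j k : ℕ) :
    (j, k) ∈ S ↔ j < J S k := by
  constructor
  · intro h
    have hsub : (Finset.range (j + 1)).image (fun i => (i, k)) ⊆ S.filter (fun p => p.2 = k) := by
      intro p hp
      simp only [Finset.mem_image, Finset.mem_range] at hp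
      obtain ⟨i, hi, rfl⟩ := hp
      simp only [Finset.mem_filter, and_true]
      exact hS.2.2 j k h i k (by omega) le_rfl
    have := Finset.card_le_card hsub
    rw [Finset.card_image_of_injective _ (fun a b h => by simpa using h), Finset.card_range] at this
    exact this
  · intro h
    by_contra hcon
    have hsub : S.filter (fun p => p.2 = k) ⊆ (Finset.range j).image (fun i => (i, k)) := by
      intro p hp
      simp only [Finset.mem_filter] at hp
      obtain ⟨hp1, hp2⟩ := hp
      simp only [Finset.mem_image, Finset.mem_range]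
      refine ⟨p.1, ?_, by rw [← hp2]⟩
      by_contra h2
      apply hcon
      have hp' : (p.1, k) ∈ S := by rw [← hp2]; exact hp1
      exact hS.2.2 p.1 k hp' j k (by omega) le_rfl
    have := Finset.card_le_card hsub
    rw [Finset.card_image_of_injective _ (fun a b h => by simpa using h), Finset.card_range] at this
    have h3 : J S k ≤ j := this
    omega

theorem row_ge {n ν : ℕ} {S : Finset (ℕ × ℕ)} (hS : IsInterpSet n ν S) {k : ℕ} (hk : k ≤ n) :
    n + 1 - k ≤ J S k := by
  have h1 : (n - k, k) ∈ S := hS.2.1 _ _ (by omega)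
  have := (mem_row hS _ _).mp h1
  omega

theorem sum_rows (S : Finset (ℕ × ℕ)) (N : ℕ) :
    ∑ k ∈ Finset.range N, J S k ≤ S.card := by
  have h1 : ∑ k ∈ Finset.range N, J S k = (S.filter (fun p => p.2 ∈ Finset.range N)).card := by
    rw [Finset.card_eq_sum_card_fiberwise (f := fun p : ℕ × ℕ => p.2) (t := Finset.range N)]
    · apply Finset.sum_congr rfl
      intro k hk
      unfold J
      congr 1
      ext p
      simp only [Finset.mem_filter]
      constructor
      · rintro ⟨h1, h2⟩
        exact ⟨⟨h1, by rw [h2]; exact hk⟩, h2⟩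
      · rintro ⟨⟨h1, _⟩, h2⟩
        exact ⟨h1, h2⟩
    · intro p hp
      simp only [Finset.coe_filter, Set.mem_ofPred_eq] at hp
      exact hp.2
  rw [h1]
  exact Finset.card_le_card (Finset.filter_subset _ _)

theorem tri_sum (n : ℕ) : ∑ k ∈ Finset.range (n + 1), (n + 1 - k) = (n + 1) * (n + 2) / 2 := by
  have h1 : ∑ k ∈ Finset.range (n + 1), (n + 1 - k) = ∑ k ∈ Finset.range (n + 1), (k + 1) := by
    rw [← Finset.sum_range_reflect]
    apply Finset.sum_congr rfl
    intro k hk
    rw [Finset.mem_range] at hk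
    omega
  rw [h1, Finset.sum_add_distrib, Finset.sum_const, Finset.card_range, smul_eq_mul, mul_one]
  have h2 := Finset.sum_range_id_mul_two (n + 1)
  simp only [Nat.add_sub_cancel] at h2
  have h3 : (n + 1) * (n + 2) = 2 * (∑ i ∈ Finset.range (n + 1), i + (n + 1)) := by
    nlinarith
  rw [h3]
  omega

/-- The counting argument: some row carries few conditions. -/
theorem few_conditions {n ν : ℕ} (hν : 2 ≤ ν) (hn : ν ≤ n) {S : Finset (ℕ × ℕ)}
    (hS : IsInterpSet n ν S) :
    (J S 0 < n + 1 + ν) ∨ (∃ k, 1 ≤ k ∧ k < ν ∧ J S k < (n + 1 - k) + (ν - k + 1)) ∨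
      (J S ν < (n + 1 - ν) + 2) := by
  by_contra hcon
  push Not at hcon
  obtain ⟨h0, hk, hlast⟩ := hcon
  have hS1 := hS.1
  have hsum := sum_rows S (n + 1)
  -- lower bound for the rows
  have hrow : ∀ k ∈ Finset.range (n + 1), (n + 1 - k) + (ν + 1 - k) + (if k = ν then 1 else 0)
      ≤ J S k + (if k = 0 then 1 else 0) := by
    intro k hkn
    rw [Finset.mem_range] at hkn
    rcases Nat.eq_zero_or_pos k with rfl | hk0
    · have : (0:ℕ) ≠ ν := by omega
      simp only [this, if_false, if_true]
      omega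
    · have hk0' : k ≠ 0 := by omega
      simp only [hk0', if_false]
      rcases lt_trichotomy k ν with h | h | h
      · have := hk k hk0 h
        have h' : k ≠ ν := by omega
        simp only [h', if_false]
        omega
      · subst h
        simp only [if_true]
        omega
      · have h' : k ≠ ν := by omega
        simp only [h', if_false]
        have := row_ge hS (k := k) (by omega)
        omega
  have hsum2 := Finset.sum_le_sum hrow
  rw [Finset.sum_add_distrib, Finset.sum_add_distrib, Finset.sum_add_distrib] at hsum2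
  rw [Finset.sum_ite_eq' , Finset.sum_ite_eq'] at hsum2
  have hm1 : ν ∈ Finset.range (n + 1) := Finset.mem_range.mpr (by omega)
  have hm2 : 0 ∈ Finset.range (n + 1) := Finset.mem_range.mpr (by omega)
  simp only [hm1, hm2, if_true] at hsum2
  rw [tri_sum] at hsum2
  have h4 : (ν + 1) * (ν + 2) / 2 ≤ ∑ k ∈ Finset.range (n + 1), (ν + 1 - k) := by
    rw [← tri_sum ν]
    apply Finset.sum_le_sum_of_subset
    intro k hk
    rw [Finset.mem_range] at hk ⊢
    omega
  omega

/-- the coefficient functional: `j`-th coefficient of `(∑_{l<d} c_l z^l) / (1 - z^ν)` -/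
noncomputable def hco (ν d : ℕ) (c : ℕ → ℂ) (j : ℕ) : ℂ :=
  ∑ l ∈ Finset.range d, if l ≤ j ∧ ν ∣ (j - l) then c l else 0

theorem exists_kernel (ν d a b : ℕ) (hd0 : 0 < d) (h : b < a + d) :
    ∃ c : ℕ → ℂ, (∃ l < d, c l ≠ 0) ∧ ∀ j, a ≤ j → j < b → hco ν d c j = 0 := by
  let M : Matrix (Fin (b - a)) (Fin d) ℂ := fun i l =>
    if (l : ℕ) ≤ a + i ∧ ν ∣ (a + i - l) then 1 else 0
  have hker : LinearMap.ker M.mulVecLin ≠ ⊥ := by
    apply LinearMap.ker_ne_bot_of_finrank_lt
    simp
    omega
  obtain ⟨x, hx, hx0⟩ := Submodule.ne_bot_iff _ |>.mp hker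
  rw [LinearMap.mem_ker, Matrix.mulVecLin_apply] at hx
  refine ⟨fun l => if hl : l < d then x ⟨l, hl⟩ else 0, ?_, ?_⟩
  · by_contra hcon
    push Not at hcon
    apply hx0
    ext l
    have := hcon l l.2
    simpa using this
  · intro j haj hjb
    have h1 := congrFun hx ⟨j - a, by omega⟩
    simp only [Matrix.mulVec, dotProduct, Pi.zero_apply, M] at h1
    have e : a + (j - a) = j := by omega
    simp only [e] at h1
    unfold hco
    rw [← Fin.sum_univ_eq_sum_range (fun l => if l ≤ j ∧ ν ∣ (j - l) then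
      (if hl : l < d then x ⟨l, hl⟩ else 0) else 0) d]
    refine Eq.trans ?_ h1
    apply Finset.sum_congr rfl
    intro l _
    by_cases hc : (l : ℕ) ≤ j ∧ ν ∣ (j - l)
    · simp [hc]
    · simp [hc]

end Pool.Agent.Ha75ade
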