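import Mathlib

set_option autoImplicit false

open Filter Topology

namespace Pool.Agent.Ha75ade

/-- The exponent of the monomial `z₁^j z₂^k`. -/
noncomputable def ex (j k : ℕ) : Fin 2 →₀ ℕ := Finsupp.single 0 j + Finsupp.single 1 k

/-- `S` is an interpolation set for type `(n, ν)`. -/
def IsInterpSet (n ν : ℕ) (S : Finset (ℕ × ℕ)) : Prop :=
  S.card + 1 = (n + 1) * (n + 2) / 2 + (ν + 1) * (ν + 2) / 2 ∧
  (∀ j k, j + k ≤ n → (j, k) ∈ S) ∧
  (∀ j k, (j, k) ∈ S → ∀ l m, l ≤ j → m ≤ k → (l, m) ∈ S)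

/-- `P / Q` is a rational approximant of type `(n, ν)` to the power series `f` corresponding
to `S`. -/
def IsApproximant (n ν : ℕ) (f : MvPowerSeries (Fin 2) ℂ) (S : Finset (ℕ × ℕ))
    (P Q : MvPolynomial (Fin 2) ℂ) : Prop :=
  P.totalDegree ≤ n ∧ Q.totalDegree ≤ ν ∧ Q ≠ 0 ∧
  ∀ j k, (j, k) ∈ S → MvPowerSeries.coeff (ex j k)
    ((Q : MvPowerSeries (Fin 2) ℂ) * f - (P : MvPowerSeries (Fin 2) ℂ)) = 0

/-- The power series `F` converges everywhere, i.e. defines an entire function of two variables. -/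
def IsEntire (F : MvPowerSeries (Fin 2) ℂ) : Prop :=
  ∀ z : Fin 2 → ℂ, Summable (fun m : Fin 2 →₀ ℕ => MvPowerSeries.coeff m F * ∏ i, z i ^ m i)

/-- The value at `z` of the entire function with power series `F`. -/
noncomputable def value (F : MvPowerSeries (Fin 2) ℂ) (z : Fin 2 → ℂ) : ℂ :=
  ∑' m : Fin 2 →₀ ℕ, MvPowerSeries.coeff m F * ∏ i, z i ^ m i

/-- Locally uniform convergence of `P_n / Q_n` to `F / G` on `{G ≠ 0}`. -/
def Converges (P Q : ℕ → MvPolynomial (Fin 2) ℂ) (F : MvPowerSeries (Fin 2) ℂ)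
    (G : MvPolynomial (Fin 2) ℂ) : Prop :=
  ∀ K : Set (Fin 2 → ℂ), IsCompact K → (∀ z ∈ K, MvPolynomial.eval z G ≠ 0) →
    (∀ᶠ n in atTop, ∀ z ∈ K, MvPolynomial.eval z (Q n) ≠ 0) ∧
    ∀ ε : ℝ, 0 < ε → ∀ᶠ n in atTop, ∀ z ∈ K,
      ‖MvPolynomial.eval z (P n) / MvPolynomial.eval z (Q n) - value F z / MvPolynomial.eval z G‖
        < ε

/-- A weaker notion of convergence: for large `n` the rational function `P_n / Q_n` may be
rewritten as `P' / Q'` (for instance in lowest terms) before it is required that the denominator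
has no zero on `K` and that the quotient is close to `F / G` on `K`. -/
def ConvergesWeakly (P Q : ℕ → MvPolynomial (Fin 2) ℂ) (F : MvPowerSeries (Fin 2) ℂ)
    (G : MvPolynomial (Fin 2) ℂ) : Prop :=
  ∀ K : Set (Fin 2 → ℂ), IsCompact K → (∀ z ∈ K, MvPolynomial.eval z G ≠ 0) →
    ∀ ε : ℝ, 0 < ε → ∀ᶠ n in atTop, ∃ P' Q' : MvPolynomial (Fin 2) ℂ,
      P n * Q' = P' * Q n ∧ ∀ z ∈ K, MvPolynomial.eval z Q' ≠ 0 ∧
        ‖MvPolynomial.eval z P' / MvPolynomial.eval z Q' - value F z / MvPolynomial.eval z G‖ < ε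

/-- The assertion of Q1 for a given `ν`, with the given notion of convergence. -/
def Assertion (ν : ℕ) (Conv : (ℕ → MvPolynomial (Fin 2) ℂ) → (ℕ → MvPolynomial (Fin 2) ℂ) →
    MvPowerSeries (Fin 2) ℂ → MvPolynomial (Fin 2) ℂ → Prop) : Prop :=
  ∀ (F : MvPowerSeries (Fin 2) ℂ) (G : MvPolynomial (Fin 2) ℂ) (f : MvPowerSeries (Fin 2) ℂ),
    IsEntire F → G.totalDegree = ν → MvPolynomial.eval 0 G ≠ 0 →
    (G : MvPowerSeries (Fin 2) ℂ) * f = F →
    ∃ S : ℕ → Finset (ℕ × ℕ), (∀ n, IsInterpSet n ν (S n)) ∧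
      ∀ P Q : ℕ → MvPolynomial (Fin 2) ℂ, (∀ n, IsApproximant n ν f (S n) (P n) (Q n)) →
        Conv P Q F G

end Pool.Agent.Ha75ade
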